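import Pool.Agent.H685R3.KDefs

/-!
Definitions: payoff sets which depend only on an equivalence class of the play.
-/

set_option autoImplicit false

namespace Run7.h144.TD

open Encodable
open Pool.Agent.H685R3 (hist)

/-- The sequence of the moves of player I (for `β = 0`) or of player II (for `β = 1`) in the play
`x`. -/
def part (β : ℕ) (x : ℕ → Bool) (n : ℕ) : Bool := x (2 * n + β)

/-- The play in which player I makes the moves `a 0, a 1, ...` and player II the moves
`b 0, b 1, ...`. -/
def join (a b : ℕ → Bool) (n : ℕ) : Bool := if n % 2 = 0 then a (n / 2) else b (n / 2)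

/-- In the play `x` the player `β` follows the strategy coded by `u`: after the history `h` this
strategy plays the bit of `u` at the code number of `h`. -/
def Follows (β : ℕ) (u x : ℕ → Bool) : Prop :=
  ∀ n, x (2 * n + β) = u (encode (hist x (2 * n + β)))

/-- The set of all plays `x` such that for some `u` with `L₀ x u` and all `z` with `L₁ x z` the run
in which player I follows the strategy coded by `u` and player II the one coded by `z` is in
`A`. -/
def Decoded (L₀ L₁ : (ℕ → Bool) → (ℕ → Bool) → Prop) (A : Set (ℕ → Bool)) : Set (ℕ → Bool) :=
  {x | ∃ u, L₀ x u ∧ ∀ z y, L₁ x z → Follows 0 u y → Follows 1 z y → y ∈ A}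

/-- The coded form of `A`: there is a `u` such that the class of `x` contains a play in which player
I plays `κ₀ u`, and such that for all `z` such that this class contains a play in which player II
plays `κ₁ z`, the run in which player I follows the strategy coded by `u` and player II the one
coded by `z` is in `A`. -/
def Coded (R : (ℕ → Bool) → (ℕ → Bool) → Prop) (κ₀ κ₁ : (ℕ → Bool) → ℕ → Bool)
    (A : Set (ℕ → Bool)) : Set (ℕ → Bool) :=
  Decoded (fun x u => ∃ b, R x (join (κ₀ u) b)) (fun x z => ∃ a, R x (join a (κ₁ z))) A

/-- The class of a play in which player II plays a code `κ₁ t` contains plays with at most one code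
`κ₀ u` of player I, and the class of a play in which player I plays a code `κ₀ t` contains plays
with at most one code `κ₁ z` of player II. -/
structure Separated (R : (ℕ → Bool) → (ℕ → Bool) → Prop) (κ₀ κ₁ : (ℕ → Bool) → ℕ → Bool) :
    Prop where
  left : ∀ a t u b u' b', R (join a (κ₁ t)) (join (κ₀ u) b) →
    R (join a (κ₁ t)) (join (κ₀ u') b') → u = u'
  right : ∀ b t a z a' z', R (join (κ₀ t) b) (join a (κ₁ z)) →
    R (join (κ₀ t) b) (join a' (κ₁ z')) → z = z'

/-- The plays `x` and `y` have the same pair of classes: the sequences of the moves of player I are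
`E`-equivalent and the sequences of the moves of player II are `F`-equivalent. -/
def SamePair (E F : (ℕ → Bool) → (ℕ → Bool) → Prop) (x y : ℕ → Bool) : Prop :=
  E (part 0 x) (part 0 y) ∧ F (part 1 x) (part 1 y)

/-- The plays `x` and `y` have the same unordered pair of classes: the `E`-classes of the sequences
of the moves of the two players are the same, up to the order. -/
def SameUnordered (E : (ℕ → Bool) → (ℕ → Bool) → Prop) (x y : ℕ → Bool) : Prop :=
  (E (part 0 x) (part 0 y) ∧ E (part 1 x) (part 1 y)) ∨
    (E (part 0 x) (part 1 y) ∧ E (part 1 x) (part 0 y))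

/-- The sequence `b, u 0, u 1, ...`. -/
def cons (b : Bool) (u : ℕ → Bool) (n : ℕ) : Bool := if n = 0 then b else u (n - 1)

end Run7.h144.TD
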