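import Pool.Agent.Run7.h144.TD.NF
import Pool.Agent.Run7.h144.TD.Defs

/-!
Runs of coded strategies, and the normal form theorem for analytic relations.
-/

set_option autoImplicit false

namespace Run7.h144.TD

open Encodable MeasureTheory
open Pool.Agent.H685R3 (hist)

/-- The histories of the run in which the player `b` follows `u` and the other one `t`. -/
def rl (b : ℕ) (u t : ℕ → Bool) : ℕ → List Bool
  | 0 => []
  | n + 1 => rl b u t n ++ [if n % 2 = b then u (encode (rl b u t n)) else t (encode (rl b u t n))]

/-- The run in which the player `b` follows `u` and the other one `t`. -/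
def rn (b : ℕ) (u t : ℕ → Bool) (n : ℕ) : Bool :=
  if n % 2 = b then u (encode (rl b u t n)) else t (encode (rl b u t n))

theorem hist_rn (b : ℕ) (u t : ℕ → Bool) (n : ℕ) : hist (rn b u t) n = rl b u t n := by
  induction n with
  | zero => rfl
  | succ n ih => rw [hist_succ, ih]; rfl

theorem rn_eq (b : ℕ) (u t : ℕ → Bool) (n : ℕ) : rn b u t n =
    if n % 2 = b then u (encode (hist (rn b u t) n)) else t (encode (hist (rn b u t) n)) := by
  rw [hist_rn, rn]

theorem follows_own {b : ℕ} (hb : b < 2) (u t : ℕ → Bool) : Follows b u (rn b u t) := fun n => by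
  rw [rn_eq, if_pos (by omega)]

theorem follows_opp {b : ℕ} (hb : b < 2) (u t : ℕ → Bool) :
    Follows (1 - b) t (rn b u t) := fun n => by
  rw [rn_eq, if_neg (by omega)]

theorem rn_unique {b : ℕ} (hb : b < 2) {u t y : ℕ → Bool} (h0 : Follows b u y)
    (h1 : Follows (1 - b) t y) : y = rn b u t := by
  have key : ∀ n, hist y n = hist (rn b u t) n := by
    intro n
    induction n with
    | zero => rfl
    | succ n ih =>
      rw [hist_succ, hist_succ, ih, rn_eq]
      congr 2
      by_cases hn : n % 2 = b
      · rw [if_pos hn, ← ih]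
        have := h0 (n / 2)
        rwa [show 2 * (n / 2) + b = n by omega] at this
      · rw [if_neg hn, ← ih]
        have := h1 (n / 2)
        rwa [show 2 * (n / 2) + (1 - b) = n by omega] at this
  funext n
  have h := key (n + 1)
  rw [hist_succ, hist_succ] at h
  have h2 := List.append_inj_right' h rfl
  simpa using h2

local instance instTopList : TopologicalSpace (List Bool) := ⊥
local instance instDiscList : DiscreteTopology (List Bool) := ⟨rfl⟩

theorem continuous_eval_list : Continuous fun p : (ℕ → Bool) × List Bool => p.1 (encode p.2) := by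
  refine continuous_iff_continuousAt.2 fun p => ?_
  have h : ∀ᶠ q in nhds p, q.1 (encode q.2) = p.1 (encode p.2) := by
    have h1 : ∀ᶠ q : (ℕ → Bool) × List Bool in nhds p, q.2 = p.2 := by
      have : {l : List Bool | l = p.2} ∈ nhds p.2 := by
        rw [nhds_discrete]
        exact rfl
      exact continuous_snd.continuousAt this
    have h2 : ∀ᶠ q : (ℕ → Bool) × List Bool in nhds p, q.1 (encode p.2) = p.1 (encode p.2) := by
      have h3 : Continuous fun q : (ℕ → Bool) × List Bool => q.1 (encode p.2) :=
        (continuous_apply _).comp continuous_fst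
      have : {c : Bool | c = p.1 (encode p.2)} ∈ nhds (p.1 (encode p.2)) := by
        rw [nhds_discrete]
        exact rfl
      exact h3.continuousAt this
    filter_upwards [h1, h2] with q h3 h4
    rw [h3]
    exact h4
  exact (tendsto_nhds_of_eventually_eq h)

theorem continuous_rl (b n : ℕ) :
    Continuous fun p : (ℕ → Bool) × (ℕ → Bool) => rl b p.1 p.2 n := by
  induction n with
  | zero => exact continuous_const
  | succ n ih =>
    have h1 : Continuous fun p : (ℕ → Bool) × (ℕ → Bool) =>
        (if n % 2 = b then p.1 (encode (rl b p.1 p.2 n)) else p.2 (encode (rl b p.1 p.2 n))) := by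
      by_cases hn : n % 2 = b
      · simp only [if_pos hn]
        exact continuous_eval_list.comp (continuous_fst.prodMk ih)
      · simp only [if_neg hn]
        exact continuous_eval_list.comp (continuous_snd.prodMk ih)
    have h2 : Continuous fun q : List Bool × Bool => q.1 ++ [q.2] := continuous_of_discreteTopology
    exact h2.comp (ih.prodMk h1)

theorem continuous_rn (b : ℕ) : Continuous fun p : (ℕ → Bool) × (ℕ → Bool) => rn b p.1 p.2 := by
  refine continuous_pi fun n => ?_
  by_cases hn : n % 2 = b
  · simp only [rn, if_pos hn]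
    exact continuous_eval_list.comp (continuous_fst.prodMk (continuous_rl b n))
  · simp only [rn, if_neg hn]
    exact continuous_eval_list.comp (continuous_snd.prodMk (continuous_rl b n))

theorem polish_cantor : PolishSpace (ℕ → Bool) := by
  have : TopologicalSpace.IsCompletelyMetrizableSpace (ℕ → Bool) :=
    TopologicalSpace.IsCompletelyMetrizableSpace.pi_countable
  infer_instance

theorem polish_pair : PolishSpace ((ℕ → Bool) × (ℕ → Bool)) := by
  have : TopologicalSpace.IsCompletelyMetrizableSpace (ℕ → Bool) :=
    TopologicalSpace.IsCompletelyMetrizableSpace.pi_countable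
  infer_instance

/-- A function with analytic graph is Borel. -/
theorem measurable_of_graph {D : (ℕ → Bool) → (ℕ → Bool) → Prop}
    (hD : AnalyticSet {p : (ℕ → Bool) × (ℕ → Bool) | D p.1 p.2})
    (hu : ∀ t u u', D t u → D t u' → u = u') {U : (ℕ → Bool) → ℕ → Bool} (hU : ∀ t, D t (U t)) :
    Measurable U := by
  have _ := polish_cantor
  have _ := polish_pair
  have key : ∀ B : Set (ℕ → Bool), MeasurableSet B → AnalyticSet (U ⁻¹' B) := by
    intro B hB
    have h1 : U ⁻¹' B = Prod.fst '' ({p : (ℕ → Bool) × (ℕ → Bool) | D p.1 p.2} ∩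
        Prod.snd ⁻¹' B) := by
      ext t
      constructor
      · intro ht
        exact ⟨(t, U t), ⟨hU t, ht⟩, rfl⟩
      · rintro ⟨⟨t', u⟩, ⟨h2, h3⟩, rfl⟩
        have : U t' = u := hu _ _ _ (hU t') h2
        rw [Set.mem_preimage, this]
        exact h3
    rw [h1]
    refine AnalyticSet.image_of_continuous ?_ continuous_fst
    have h4 : AnalyticSet (Prod.snd ⁻¹' B : Set ((ℕ → Bool) × (ℕ → Bool))) :=
      (measurable_snd hB).analyticSet
    have h5 := AnalyticSet.iInter (s := fun i : Bool => if i then
      {p : (ℕ → Bool) × (ℕ → Bool) | D p.1 p.2} else Prod.snd ⁻¹' B) (fun i => by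
        cases i
        · simpa using h4
        · simpa using hD)
    have h6 : (⋂ i : Bool, if i then {p : (ℕ → Bool) × (ℕ → Bool) | D p.1 p.2} else
        Prod.snd ⁻¹' B) = {p : (ℕ → Bool) × (ℕ → Bool) | D p.1 p.2} ∩ Prod.snd ⁻¹' B := by
      ext p
      simp [Set.mem_iInter, and_comm]
    rw [← h6]
    exact h5
  intro B hB
  refine AnalyticSet.measurableSet_of_compl (key B hB) ?_
  rw [← Set.preimage_compl]
  exact key _ hB.compl

/-- The normal form theorem for analytic relations. -/
theorem wins_of_analytic {b : ℕ} (hb : b < 2) {A : Set (ℕ → Bool)}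
    {D : (ℕ → Bool) → (ℕ → Bool) → Prop}
    (hD : AnalyticSet {p : (ℕ → Bool) × (ℕ → Bool) | D p.1 p.2}) (hex : ∀ t, ∃ u, D t u)
    (hu : ∀ t u u', D t u → D t u' → u = u') (hA : ∀ t u, D t u → rn b u t ∈ A) : Wins b A := by
  choose U hU using hex
  have hm : Measurable U := measurable_of_graph hD hu hU
  refine wins_of_borel hb (F := fun t => rn b (U t) t) ?_ (fun t => hA t _ (hU t)) ?_
  · exact (continuous_rn b).measurable.comp (hm.prodMk measurable_id)
  · intro t n hn
    have := follows_opp hb (U t) t (n / 2)
    rwa [show 2 * (n / 2) + (1 - b) = n by omega] at this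

end Run7.h144.TD
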