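import Pool.Agent.Run7.h144.TD.Grp

/-!
A group without free subsemigroups of rank two is tame.
-/

set_option autoImplicit false

namespace Run7.h144.TD

variable {f : Bool → Equiv.Perm ℕ} {D : Set ℕ}

theorem img_cons (b : Bool) (w : List Bool) (X : Set ℕ) :
    ((b :: w).map f).prod '' X = f b '' ((w.map f).prod '' X) := by
  rw [List.map_cons, List.prod_cons, Equiv.Perm.coe_mul, Set.image_comp]

theorem words_sub (h1 : ∀ b, (f b '' D \ D).Finite) (w : List Bool) :
    ((w.map f).prod '' D \ D).Finite := by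
  induction w with
  | nil => simp
  | cons b w ih =>
    rw [img_cons]
    refine ((ih.image (f b)).union (h1 b)).subset ?_
    rintro p ⟨⟨n, hn, rfl⟩, hp⟩
    by_cases hnD : n ∈ D
    · exact Or.inr ⟨⟨n, hnD, rfl⟩, hp⟩
    · exact Or.inl ⟨n, ⟨hn, hnD⟩, rfl⟩

theorem words_sub' (h1 : ∀ b, (f b '' D \ D).Finite) (b : Bool) (w : List Bool) :
    (((b :: w).map f).prod '' D \ f b '' D).Finite := by
  rw [img_cons]
  refine ((words_sub h1 w).image (f b)).subset ?_
  rintro p ⟨⟨n, hn, rfl⟩, hp⟩
  exact ⟨n, ⟨hn, fun h => hp ⟨n, h, rfl⟩⟩, rfl⟩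

theorem words_injective (hD : D.Infinite) (h1 : ∀ b, (f b '' D \ D).Finite)
    (h2 : (f true '' D ∩ f false '' D).Finite) :
    ∀ v w : List Bool, (v.map f).prod = (w.map f).prod → v = w := by
  have h3 : ∀ b, (f b '' D ∩ f (!b) '' D).Finite := by
    intro b
    cases b
    · rw [Set.inter_comm]
      exact h2
    · exact h2
  have hinf : ∀ g : Equiv.Perm ℕ, (g '' D).Infinite := fun g => hD.image g.injective.injOn
  have h4 : ∀ (b : Bool) (v w : List Bool),
      ((b :: v).map f).prod ≠ (((!b) :: w).map f).prod := by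
    intro b v w h
    refine hinf ((b :: v).map f).prod ?_
    refine (((words_sub' h1 b v).union (words_sub' h1 (!b) w)).union (h3 b)).subset ?_
    intro p hp
    by_cases hb : p ∈ f b '' D
    · by_cases hc : p ∈ f (!b) '' D
      · exact Or.inr ⟨hb, hc⟩
      · refine Or.inl (Or.inr ⟨?_, hc⟩)
        rw [← h]
        exact hp
    · exact Or.inl (Or.inl ⟨hp, hb⟩)
  have h5 : ∀ (b : Bool) (v : List Bool), ((b :: v).map f).prod ≠ 1 := by
    intro b v h
    refine hinf (f (!b)) ?_
    have h6 := words_sub' h1 b v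
    rw [h] at h6
    refine (((h1 (!b)).union h6).union (h3 b)).subset ?_
    intro p hp
    by_cases hb : p ∈ f b '' D
    · exact Or.inr ⟨hb, hp⟩
    · by_cases hp' : p ∈ D
      · exact Or.inl (Or.inr ⟨⟨p, hp', rfl⟩, hb⟩)
      · exact Or.inl (Or.inl ⟨hp, hp'⟩)
  intro v
  induction v with
  | nil =>
    intro w h
    cases w with
    | nil => rfl
    | cons c w => exact absurd h.symm (by simpa using h5 c w)
  | cons b v ih =>
    intro w h
    cases w with
    | nil => exact absurd h (by simpa using h5 b v)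
    | cons c w =>
      by_cases hbc : c = b
      · subst hbc
        rw [List.map_cons, List.prod_cons, List.map_cons, List.prod_cons] at h
        rw [ih w (mul_left_cancel h)]
      · have : c = !b := by
          revert hbc
          cases c <;> cases b <;> simp
        rw [this] at h
        exact absurd h (h4 b v w)

theorem tame_of_words {Γ : Subgroup (Equiv.Perm ℕ)}
    (hΓ : ∀ f : Bool → Equiv.Perm ℕ, (∀ b, f b ∈ Γ) →
      ∃ v w : List Bool, v ≠ w ∧ (v.map f).prod = (w.map f).prod) (hD : D.Infinite) :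
    Tame Γ D D := by
  refine ⟨subset_rfl, fun γ hγ γ' hγ' h1 h2 => ?_⟩
  by_contra hcon
  rw [Set.not_infinite] at hcon
  obtain ⟨v, w, h3, h4⟩ := hΓ (fun b => if b then γ else γ') (fun b => by
    cases b
    · simpa using hγ'
    · simpa using hγ)
  refine h3 (words_injective (f := fun b => if b then γ else γ') hD (fun b => ?_) (by simpa using hcon)
    v w h4)
  cases b
  · simpa using h2
  · simpa using h1

end Run7.h144.TD
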