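import Pool.Agent.Run7.h144.TD.Defs

/-!
Definitions: payoff sets which are invariant under a group of permutations of the positions.
-/

set_option autoImplicit false

namespace Run7.h144.TD

open Filter

/-- `P` is contained in `D`, and any two images of `P` under elements of the group `Γ` which are
contained in `D` up to finite sets have infinite intersection. -/
def Tame (Γ : Subgroup (Equiv.Perm ℕ)) (P D : Set ℕ) : Prop :=
  P ⊆ D ∧ ∀ γ ∈ Γ, ∀ γ' ∈ Γ, (γ '' P \ D).Finite → (γ' '' P \ D).Finite →
    (γ '' P ∩ γ' '' P).Infinite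

/-- For some `γ ∈ Γ` the play `x` has at the position `γ n` the value `w (μ n)`, for all `n ∈ P` up
to finitely many. -/
def Carries (Γ : Subgroup (Equiv.Perm ℕ)) (P : Set ℕ) (μ : ℕ → ℕ) (w x : ℕ → Bool) : Prop :=
  ∃ γ ∈ Γ, ∀ᶠ n in cofinite, n ∈ P → x (γ n) = w (μ n)

/-- The coded form of `A`: the set of all plays `x` such that for some `u`, for which `x` carries
`0, u 0, u 1, ...` on `P₀`, and for all `z`, for which `x` carries `1, z 0, z 1, ...` on `P₁`, the
run in which player I follows the strategy coded by `u` and player II the one coded by `z` is in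
`A`. -/
def GroupCoded (Γ : Subgroup (Equiv.Perm ℕ)) (P₀ P₁ : Set ℕ) (μ : ℕ → ℕ) (A : Set (ℕ → Bool)) :
    Set (ℕ → Bool) :=
  Decoded (fun x u => Carries Γ P₀ μ (cons false u) x) (fun x z => Carries Γ P₁ μ (cons true z) x) A

end Run7.h144.TD
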