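import Mathlib

/-!
A function which takes every value on infinitely many pairs `(n, δ n)`, for countably many
injections `δ` given on infinite sets.
-/

set_option autoImplicit false

namespace Run7.h144.TD

/-- A function `μ` such that for all `i` and `m` there are infinitely many `n` in `S i` with
`μ n = m` and `μ (δ i n) = m`. -/
theorem exists_mu_nat (S : ℕ → Set ℕ) (δ : ℕ → ℕ → ℕ) (hS : ∀ i, (S i).Infinite)
    (hδ : ∀ i, Function.Injective (δ i)) :
    ∃ μ : ℕ → ℕ, ∀ i m, {n | n ∈ S i ∧ μ n = m ∧ μ (δ i n) = m}.Infinite := by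
  classical
  have hstep : ∀ (k : ℕ) (U : Finset ℕ), ∃ n, n ∈ S k.unpair.1 ∧ n ∉ U ∧ δ k.unpair.1 n ∉ U := by
    intro k U
    have h1 : ((U : Set ℕ) ∪ (δ k.unpair.1) ⁻¹' (U : Set ℕ)).Finite :=
      U.finite_toSet.union (U.finite_toSet.preimage (hδ _).injOn)
    obtain ⟨n, hn, hn'⟩ := (hS k.unpair.1).exists_notMem_finite h1
    refine ⟨n, hn, fun h => hn' (Or.inl h), fun h => hn' (Or.inr h)⟩
  choose f hf1 hf2 hf3 using hstep
  let st : ℕ → Finset ℕ := fun k => Nat.rec ∅ (fun k U => insert (f k U)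
    (insert (δ k.unpair.1 (f k U)) U)) k
  have hst : ∀ k, st (k + 1) = insert (f k (st k)) (insert (δ k.unpair.1 (f k (st k))) (st k)) :=
    fun k => rfl
  have hmono : Monotone st := monotone_nat_of_le_succ fun k => by
    rw [hst]
    exact (Finset.subset_insert _ _).trans (Finset.subset_insert _ _)
  let n : ℕ → ℕ := fun k => f k (st k)
  have hmem : ∀ k, n k ∈ st (k + 1) ∧ δ k.unpair.1 (n k) ∈ st (k + 1) := by
    intro k
    rw [hst]
    exact ⟨Finset.mem_insert_self _ _, Finset.mem_insert_of_mem (Finset.mem_insert_self _ _)⟩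
  have hnot : ∀ k, n k ∉ st k ∧ δ k.unpair.1 (n k) ∉ st k := fun k => ⟨hf2 k _, hf3 k _⟩
  have huniq : ∀ k l p, (p = n k ∨ p = δ k.unpair.1 (n k)) → (p = n l ∨ p = δ l.unpair.1 (n l)) →
      k = l := by
    have key : ∀ k l p, k < l → (p = n k ∨ p = δ k.unpair.1 (n k)) →
        ¬ (p = n l ∨ p = δ l.unpair.1 (n l)) := by
      intro k l p hkl h1 h2
      have h3 : p ∈ st l := by
        have : p ∈ st (k + 1) := by
          rcases h1 with rfl | rfl
          · exact (hmem k).1
          · exact (hmem k).2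
        exact hmono (Nat.succ_le_of_lt hkl) this
      rcases h2 with rfl | rfl
      · exact (hnot l).1 h3
      · exact (hnot l).2 h3
    intro k l p h1 h2
    rcases lt_trichotomy k l with h | h | h
    · exact absurd h2 (key k l p h h1)
    · exact h
    · exact absurd h1 (key l k p h h2)
  let μ : ℕ → ℕ := fun p => if h : ∃ k, p = n k ∨ p = δ k.unpair.1 (n k) then
    h.choose.unpair.2.unpair.1 else 0
  have hμ : ∀ k p, (p = n k ∨ p = δ k.unpair.1 (n k)) → μ p = k.unpair.2.unpair.1 := by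
    intro k p hp
    have h : ∃ k, p = n k ∨ p = δ k.unpair.1 (n k) := ⟨k, hp⟩
    have h1 : μ p = h.choose.unpair.2.unpair.1 := dif_pos h
    rw [h1, huniq _ _ _ h.choose_spec hp]
  refine ⟨μ, fun i m => ?_⟩
  have h1 : Function.Injective fun j : ℕ => n (Nat.pair i (Nat.pair m j)) := by
    intro j j' h
    have h2 := huniq _ _ _ (Or.inl rfl) (Or.inl h)
    rw [Nat.pair_eq_pair, Nat.pair_eq_pair] at h2
    exact h2.2.2
  refine Set.infinite_of_injective_forall_mem h1 fun j => ⟨?_, ?_, ?_⟩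
  · have := hf1 (Nat.pair i (Nat.pair m j)) (st (Nat.pair i (Nat.pair m j)))
    simpa using this
  · have := hμ _ _ (Or.inl (rfl : n (Nat.pair i (Nat.pair m j)) = _))
    simpa using this
  · have := hμ (Nat.pair i (Nat.pair m j)) (δ i (n (Nat.pair i (Nat.pair m j))))
      (Or.inr (by simp))
    simpa using this

/-- The same for a countable family. -/
theorem exists_mu {ι : Type*} [Countable ι] (S : ι → Set ℕ) (δ : ι → ℕ → ℕ)
    (hδ : ∀ i, Function.Injective (δ i)) :
    ∃ μ : ℕ → ℕ, ∀ i, (S i).Infinite → ∀ m, {n | n ∈ S i ∧ μ n = m ∧ μ (δ i n) = m}.Infinite := by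
  classical
  by_cases hne : Nonempty {i // (S i).Infinite}
  · obtain ⟨e, he⟩ := exists_surjective_nat {i // (S i).Infinite}
    obtain ⟨μ, hμ⟩ := exists_mu_nat (fun k => S (e k).1) (fun k => δ (e k).1) (fun k => (e k).2)
      fun k => hδ _
    refine ⟨μ, fun i hi m => ?_⟩
    obtain ⟨k, hk⟩ := he ⟨i, hi⟩
    have := hμ k m
    rw [hk] at this
    exact this
  · exact ⟨fun _ => 0, fun i hi => absurd ⟨⟨i, hi⟩⟩ hne⟩

end Run7.h144.TD
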