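import Pool.Agent.Run7.h144.TD.Main
import Pool.Agent.Run7.h144.TD.Mu
import Pool.Agent.Run7.h144.TD.GDefs

/-!
Payoff sets invariant under a countable group of permutations of the positions.
-/

set_option autoImplicit false

namespace Run7.h144.TD

open Encodable MeasureTheory Filter
open Pool.Agent.H685R3 (hist WinsI WinsII)

variable {Γ : Subgroup (Equiv.Perm ℕ)} {P D : Set ℕ} {μ : ℕ → ℕ}

theorem Carries.unique {b : Bool} (hT : Tame Γ P D)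
    (m1 : ∀ δ ∈ Γ, {n | n ∈ P ∧ δ n ∉ D}.Infinite → ∀ m,
      {n | (n ∈ P ∧ δ n ∉ D) ∧ μ n = m ∧ μ (δ n) = m}.Infinite)
    (m2 : ∀ δ ∈ Γ, {n | n ∈ P ∧ δ n ∈ P}.Infinite → ∀ m,
      {n | (n ∈ P ∧ δ n ∈ P) ∧ μ n = m ∧ μ (δ n) = m}.Infinite)
    {x t u u' : ℕ → Bool} (hx : ∀ p, p ∉ D → x p = cons (!b) t (μ p))
    (h : Carries Γ P μ (cons b u) x) (h' : Carries Γ P μ (cons b u') x) : u = u' := by
  have step : ∀ γ ∈ Γ, ∀ v : ℕ → Bool, (∀ᶠ n in cofinite, n ∈ P → x (γ n) = cons b v (μ n)) →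
      (γ '' P \ D).Finite := by
    intro γ hγ v hv
    by_contra hcon
    have h1 : {n | n ∈ P ∧ γ n ∉ D}.Infinite := by
      intro hfin
      refine hcon ((hfin.image γ).subset ?_)
      rintro p ⟨⟨n, hn, rfl⟩, hp⟩
      exact ⟨n, ⟨hn, hp⟩, rfl⟩
    have h2 := m1 γ hγ h1 0
    have h3 : {n | ¬ (n ∈ P → x (γ n) = cons b v (μ n))}.Finite := hv
    obtain ⟨n, ⟨⟨hn1, hn2⟩, hn3, hn4⟩, hn5⟩ := h2.exists_notMem_finite h3
    simp only [Set.mem_setOf_eq, not_not] at hn5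
    have h4 := hn5 hn1
    rw [hx _ hn2, hn3, hn4] at h4
    simp [cons] at h4
  obtain ⟨γ, hγ, hv⟩ := h
  obtain ⟨γ', hγ', hv'⟩ := h'
  have h1 := hT.2 γ hγ γ' hγ' (step γ hγ u hv) (step γ' hγ' u' hv')
  have hδ : γ'⁻¹ * γ ∈ Γ := Γ.mul_mem (Γ.inv_mem hγ') hγ
  have h2 : {n | n ∈ P ∧ (γ'⁻¹ * γ) n ∈ P}.Infinite := by
    intro hfin
    refine h1 ((hfin.image γ).subset ?_)
    rintro p ⟨⟨n, hn, rfl⟩, ⟨n', hn', hp⟩⟩
    refine ⟨n, ⟨hn, ?_⟩, rfl⟩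
    have : (γ'⁻¹ * γ) n = n' := by
      rw [Equiv.Perm.mul_apply, ← hp]
      exact γ'.symm_apply_apply n'
    rw [this]
    exact hn'
  have h3 : ∀ᶠ n in cofinite, (γ'⁻¹ * γ) n ∈ P → x (γ n) = cons b u' (μ ((γ'⁻¹ * γ) n)) := by
    have h4 : Tendsto (γ'⁻¹ * γ) cofinite cofinite := (γ'⁻¹ * γ).injective.tendsto_cofinite
    filter_upwards [h4.eventually hv'] with n hn hn'
    rw [← hn hn']
    congr 1
    exact (γ'.apply_symm_apply (γ n)).symm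
  have h5 : ∀ m, cons b u m = cons b u' m := by
    intro m
    have h6 := m2 _ hδ h2 m
    have h7 : {n | ¬ ((n ∈ P → x (γ n) = cons b u (μ n)) ∧
        ((γ'⁻¹ * γ) n ∈ P → x (γ n) = cons b u' (μ ((γ'⁻¹ * γ) n))))}.Finite := hv.and h3
    obtain ⟨n, ⟨⟨hn1, hn2⟩, hn3, hn4⟩, hn5⟩ := h6.exists_notMem_finite h7
    simp only [Set.mem_setOf_eq, not_not] at hn5
    have h8 := hn5.1 hn1
    have h9 := hn5.2 hn2
    rw [h8, hn3, hn4] at h9
    exact h9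
  exact (cons_inj (funext h5)).2

theorem measurableSet_carries [Countable Γ] (P : Set ℕ) (μ : ℕ → ℕ) (b : Bool) :
    MeasurableSet {p : (ℕ → Bool) × (ℕ → Bool) | Carries Γ P μ (cons b p.2) p.1} := by
  have h1 : {p : (ℕ → Bool) × (ℕ → Bool) | Carries Γ P μ (cons b p.2) p.1} =
      ⋃ γ : Γ, ⋃ N : ℕ, ⋂ n : ℕ, {p | N ≤ n → n ∈ P → p.1 (γ.1 n) = cons b p.2 (μ n)} := by
    ext p
    simp only [Carries, Set.mem_setOf_eq, Set.mem_iUnion, Set.mem_iInter, Nat.cofinite_eq_atTop,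
      eventually_atTop, ge_iff_le, Subtype.exists, exists_prop]
  rw [h1]
  refine MeasurableSet.iUnion fun γ => MeasurableSet.iUnion fun N => MeasurableSet.iInter fun n => ?_
  by_cases hn : N ≤ n ∧ n ∈ P
  · have h2 : {p : (ℕ → Bool) × (ℕ → Bool) | N ≤ n → n ∈ P → p.1 (γ.1 n) = cons b p.2 (μ n)} =
        {p | p.1 (γ.1 n) = cons b p.2 (μ n)} := by
      ext p
      simp [hn.1, hn.2]
    rw [h2]
    exact measurableSet_eq_fun ((measurable_pi_apply _).comp measurable_fst)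
      ((measurable_pi_apply _).comp ((continuous_cons b).measurable.comp measurable_snd))
  · have h2 : {p : (ℕ → Bool) × (ℕ → Bool) | N ≤ n → n ∈ P → p.1 (γ.1 n) = cons b p.2 (μ n)} =
        Set.univ := by
      ext p
      simp only [Set.mem_setOf_eq, Set.mem_univ, iff_true]
      exact fun h3 h4 => absurd ⟨h3, h4⟩ hn
    rw [h2]
    exact MeasurableSet.univ

theorem Carries.of_perm {P : Set ℕ} {μ : ℕ → ℕ} {w x y : ℕ → Bool} {γ : Equiv.Perm ℕ}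
    (hγ : γ ∈ Γ) (h : ∀ᶠ n in cofinite, y n = x (γ n)) (hx : Carries Γ P μ w x) :
    Carries Γ P μ w y := by
  obtain ⟨δ, hδ, h1⟩ := hx
  refine ⟨γ⁻¹ * δ, Γ.mul_mem (Γ.inv_mem hγ) hδ, ?_⟩
  have h2 : Tendsto (γ⁻¹ * δ) cofinite cofinite := (γ⁻¹ * δ).injective.tendsto_cofinite
  filter_upwards [h1, h2.eventually h] with n h3 h4 h5
  rw [h4, ← h3 h5]
  congr 1
  exact γ.apply_symm_apply (δ n)

theorem groupCoded_perm {P₀ P₁ : Set ℕ} {μ : ℕ → ℕ} {A : Set (ℕ → Bool)} {x y : ℕ → Bool}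
    {γ : Equiv.Perm ℕ} (hγ : γ ∈ Γ) (h : ∀ᶠ n in cofinite, y n = x (γ n)) :
    x ∈ GroupCoded Γ P₀ P₁ μ A ↔ y ∈ GroupCoded Γ P₀ P₁ μ A := by
  have h' : ∀ᶠ n in cofinite, x n = y (γ⁻¹ n) := by
    have h2 : Tendsto (γ⁻¹ : Equiv.Perm ℕ) cofinite cofinite :=
      (γ⁻¹ : Equiv.Perm ℕ).injective.tendsto_cofinite
    filter_upwards [h2.eventually h] with n hn
    rw [hn]
    exact congrArg x (γ.apply_symm_apply n).symm
  have key : ∀ (P : Set ℕ) (w : ℕ → Bool), Carries Γ P μ w x ↔ Carries Γ P μ w y := fun P w =>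
    ⟨Carries.of_perm hγ h, Carries.of_perm (Γ.inv_mem hγ) h'⟩
  simp only [GroupCoded, Decoded, Set.mem_setOf_eq, key]

/-- The theorem for groups of permutations. -/
theorem group_main [Countable Γ] {P₀ P₁ : Set ℕ} (h₀ : Tame Γ P₀ {n | n % 2 = 0})
    (h₁ : Tame Γ P₁ {n | n % 2 = 1}) : ∃ μ : ℕ → ℕ, ∀ A : Set (ℕ → Bool),
      (∀ γ ∈ Γ, ∀ x y : ℕ → Bool, (∀ᶠ n in cofinite, y n = x (γ n)) →
        (x ∈ GroupCoded Γ P₀ P₁ μ A ↔ y ∈ GroupCoded Γ P₀ P₁ μ A)) ∧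
      (WinsI (GroupCoded Γ P₀ P₁ μ A) ↔ WinsI A) ∧
      (WinsII (GroupCoded Γ P₀ P₁ μ A) ↔ WinsII A) := by
  obtain ⟨μ, hμ⟩ := exists_mu (ι := Γ × (Bool × Bool))
    (fun i => {n | n ∈ (if i.2.1 then P₁ else P₀) ∧
      if i.2.2 then i.1.1 n ∈ (if i.2.1 then P₁ else P₀) else
        i.1.1 n ∉ {n | n % 2 = if i.2.1 then 1 else 0}})
    (fun i => i.1.1) (fun i => i.1.1.injective)
  have a1 : ∀ δ ∈ Γ, {n | n ∈ P₀ ∧ δ n ∉ {n | n % 2 = 0}}.Infinite → ∀ m,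
      {n | (n ∈ P₀ ∧ δ n ∉ {n | n % 2 = 0}) ∧ μ n = m ∧ μ (δ n) = m}.Infinite :=
    fun δ hδ h m => by simpa using hμ (⟨δ, hδ⟩, false, false) (by simpa using h) m
  have a2 : ∀ δ ∈ Γ, {n | n ∈ P₀ ∧ δ n ∈ P₀}.Infinite → ∀ m,
      {n | (n ∈ P₀ ∧ δ n ∈ P₀) ∧ μ n = m ∧ μ (δ n) = m}.Infinite :=
    fun δ hδ h m => by simpa using hμ (⟨δ, hδ⟩, false, true) (by simpa using h) m
  have b1 : ∀ δ ∈ Γ, {n | n ∈ P₁ ∧ δ n ∉ {n | n % 2 = 1}}.Infinite → ∀ m,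
      {n | (n ∈ P₁ ∧ δ n ∉ {n | n % 2 = 1}) ∧ μ n = m ∧ μ (δ n) = m}.Infinite :=
    fun δ hδ h m => by simpa using hμ (⟨δ, hδ⟩, true, false) (by simpa using h) m
  have b2 : ∀ δ ∈ Γ, {n | n ∈ P₁ ∧ δ n ∈ P₁}.Infinite → ∀ m,
      {n | (n ∈ P₁ ∧ δ n ∈ P₁) ∧ μ n = m ∧ μ (δ n) = m}.Infinite :=
    fun δ hδ h m => by simpa using hμ (⟨δ, hδ⟩, true, true) (by simpa using h) m
  have _ := polish_pair
  refine ⟨μ, fun A => ⟨fun γ hγ x y h => groupCoded_perm hγ h, ?_⟩⟩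
  refine decoding (κ₀ := fun u k => cons false u (μ (2 * k)))
    (κ₁ := fun z k => cons true z (μ (2 * k + 1)))
    (measurableSet_carries P₀ μ false).analyticSet (measurableSet_carries P₁ μ true).analyticSet
    (continuous_pi fun k => (continuous_apply (μ (2 * k))).comp (continuous_cons false))
    (continuous_pi fun k => (continuous_apply (μ (2 * k + 1))).comp (continuous_cons true))
    ?_ ?_ ?_ ?_ A
  · intro u b
    refine ⟨1, Γ.one_mem, Eventually.of_forall fun n hn => ?_⟩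
    have h1 : n % 2 = 0 := h₀.1 hn
    simp only [Equiv.Perm.one_apply, join]
    rw [if_pos h1, show 2 * (n / 2) = n by omega]
  · intro a z
    refine ⟨1, Γ.one_mem, Eventually.of_forall fun n hn => ?_⟩
    have h1 : n % 2 = 1 := h₁.1 hn
    simp only [Equiv.Perm.one_apply, join]
    rw [if_neg (by omega), show 2 * (n / 2) + 1 = n by omega]
  · intro a t u u' h1 h2
    refine Carries.unique (b := false) (t := t) h₀ a1 a2 (fun p hp => ?_) h1 h2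
    simp only [Set.mem_setOf_eq] at hp
    simp only [join, Bool.not_false]
    rw [if_neg hp, show 2 * (p / 2) + 1 = p by omega]
  · intro b t z z' h1 h2
    refine Carries.unique (b := true) (t := t) h₁ b1 b2 (fun p hp => ?_) h1 h2
    simp only [Set.mem_setOf_eq] at hp
    simp only [join, Bool.not_true]
    rw [if_pos (by omega), show 2 * (p / 2) = p by omega]

end Run7.h144.TD
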