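import Pool.Agent.Run7.h144.TD.Dec
import Pool.Agent.Run7.h144.TD.Defs

/-!
The determinacy of the coded form of `A` is equivalent to the determinacy of `A`, with the same
winners.
-/

set_option autoImplicit false

namespace Run7.h144.TD

open Encodable MeasureTheory
open Pool.Agent.H685R3 (hist WinsI WinsII)

theorem part_join_zero (a b : ℕ → Bool) : part 0 (join a b) = a := by
  funext n
  simp only [part, join]
  rw [if_pos (by omega)]
  congr 1
  omega

theorem part_join_one (a b : ℕ → Bool) : part 1 (join a b) = b := by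
  funext n
  simp only [part, join]
  rw [if_neg (by omega)]
  congr 1
  omega

theorem join_part (x : ℕ → Bool) : join (part 0 x) (part 1 x) = x := by
  funext n
  simp only [part, join]
  split_ifs with h <;> congr 1 <;> omega

theorem continuous_part (β : ℕ) : Continuous (part β) :=
  continuous_pi fun _ => continuous_apply _

theorem continuous_join : Continuous fun p : (ℕ → Bool) × (ℕ → Bool) => join p.1 p.2 := by
  refine continuous_pi fun n => ?_
  simp only [join]
  split_ifs
  · exact (continuous_apply _).comp continuous_fst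
  · exact (continuous_apply _).comp continuous_snd

/-- The histories of the play in which the player `b` follows `s` and the other one plays `c`. -/
def ql (s : List Bool → Bool) (b : ℕ) (c : ℕ → Bool) : ℕ → List Bool
  | 0 => []
  | n + 1 => ql s b c n ++ [if n % 2 = b then s (ql s b c n) else c (n / 2)]

/-- The play in which the player `b` follows `s` and the other one plays `c`. -/
def qq (s : List Bool → Bool) (b : ℕ) (c : ℕ → Bool) (n : ℕ) : Bool :=
  if n % 2 = b then s (ql s b c n) else c (n / 2)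

variable {s : List Bool → Bool} {b : ℕ}

theorem hist_qq (c : ℕ → Bool) (n : ℕ) : hist (qq s b c) n = ql s b c n := by
  induction n with
  | zero => rfl
  | succ n ih => rw [hist_succ, ih]; rfl

theorem qq_own (hb : b < 2) (c : ℕ → Bool) (n : ℕ) :
    qq s b c (2 * n + b) = s (hist (qq s b c) (2 * n + b)) := by
  rw [hist_qq, qq, if_pos (by omega)]

theorem part_qq (hb : b < 2) (c : ℕ → Bool) : part (1 - b) (qq s b c) = c := by
  funext n
  rw [part, qq, if_neg (by omega)]
  congr 1
  omega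

theorem ql_congr {c c' : ℕ → Bool} {n : ℕ} (h : ∀ i < n, c i = c' i) :
    ql s b c n = ql s b c' n := by
  induction n with
  | zero => rfl
  | succ n ih => rw [ql, ql, ih fun i hi => h i (by omega), h (n / 2) (by omega)]

theorem continuous_qq : Continuous (qq s b) := by
  refine continuous_pi fun n => ?_
  refine IsLocallyConstant.continuous ((IsLocallyConstant.iff_eventually_eq _).2 fun c => ?_)
  have h1 : ∀ᶠ c' in nhds c, ∀ i < n + 1, c' i = c i := by
    have h2 : ∀ i ∈ Finset.range (n + 1), ∀ᶠ c' in nhds c, c' i = c i := by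
      intro i _
      have : {v : Bool | v = c i} ∈ nhds (c i) := by
        rw [nhds_discrete]
        exact rfl
      exact (continuous_apply i).continuousAt this
    have h3 := (Filter.eventually_all_finset (Finset.range (n + 1))).2 h2
    filter_upwards [h3] with c' hc' i hi
    exact hc' i (Finset.mem_range.2 hi)
  filter_upwards [h1] with c' hc'
  rw [qq, qq, ql_congr (s := s) (b := b) fun i hi => hc' i (by omega), hc' (n / 2) (by omega)]

/-- The code of the strategy `s`. -/
def code (s : List Bool → Bool) (m : ℕ) : Bool := s ((decode (α := List Bool) m).getD [])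

theorem code_encode (s : List Bool → Bool) (l : List Bool) : code s (encode l) = s l := by
  simp [code]

theorem winsI_iff {A : Set (ℕ → Bool)} : WinsI A ↔ Wins 0 A := Iff.rfl

theorem winsII_iff {A : Set (ℕ → Bool)} : WinsII A ↔ Wins 1 Aᶜ := Iff.rfl

/-- The decoding theorem. The relations `L₀` and `L₁` decode the data of the two players. If a play
in which one player plays a code has at most one value for the data of the other player, then the
decoded form of `A` has the same winners as `A`. -/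
theorem decoding {κ₀ κ₁ : (ℕ → Bool) → ℕ → Bool} {L₀ L₁ : (ℕ → Bool) → (ℕ → Bool) → Prop}
    (a₀ : AnalyticSet {p : (ℕ → Bool) × (ℕ → Bool) | L₀ p.1 p.2})
    (a₁ : AnalyticSet {p : (ℕ → Bool) × (ℕ → Bool) | L₁ p.1 p.2})
    (c₀ : Continuous κ₀) (c₁ : Continuous κ₁)
    (l₀ : ∀ u b, L₀ (join (κ₀ u) b) u) (l₁ : ∀ a z, L₁ (join a (κ₁ z)) z)
    (u₀ : ∀ a t u u', L₀ (join a (κ₁ t)) u → L₀ (join a (κ₁ t)) u' → u = u')
    (u₁ : ∀ b t z z', L₁ (join (κ₀ t) b) z → L₁ (join (κ₀ t) b) z' → z = z')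
    (A : Set (ℕ → Bool)) :
    (WinsI (Decoded L₀ L₁ A) ↔ WinsI A) ∧ (WinsII (Decoded L₀ L₁ A) ↔ WinsII A) := by
  have _ := polish_pair
  refine ⟨?_, ?_⟩
  · rw [winsI_iff, winsI_iff]
    constructor
    · rintro ⟨s, hs⟩
      have hx : ∀ t, ∃ a, qq s 0 (κ₁ t) = join a (κ₁ t) := fun t =>
        ⟨part 0 (qq s 0 (κ₁ t)), by
          have h1 : part 1 (qq s 0 (κ₁ t)) = κ₁ t := part_qq (b := 0) (by omega) _
          conv_lhs => rw [← join_part (qq s 0 (κ₁ t))]
          rw [h1]⟩
      have hgood : ∀ t, ∃ u, L₀ (qq s 0 (κ₁ t)) u ∧ rn 0 u t ∈ A := by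
        intro t
        obtain ⟨u, h1, h2⟩ := hs (qq s 0 (κ₁ t)) (qq_own (by omega) _)
        refine ⟨u, h1, h2 t _ ?_ (follows_own (b := 0) (by omega) u t)
          (follows_opp (b := 0) (by omega) u t)⟩
        obtain ⟨a, ha⟩ := hx t
        rw [ha]
        exact l₁ _ _
      have huniq : ∀ t u u', L₀ (qq s 0 (κ₁ t)) u → L₀ (qq s 0 (κ₁ t)) u' → u = u' := by
        intro t u u' h1 h2
        obtain ⟨a, ha⟩ := hx t
        rw [ha] at h1 h2
        exact u₀ _ _ _ _ h1 h2
      refine wins_of_analytic (b := 0) (by omega)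
        (D := fun t u => L₀ (qq s 0 (κ₁ t)) u) ?_ ?_ huniq ?_
      · have h1 : Continuous fun p : (ℕ → Bool) × (ℕ → Bool) => (qq s 0 (κ₁ p.1), p.2) :=
          (continuous_qq.comp (c₁.comp continuous_fst)).prodMk continuous_snd
        exact AnalyticSet.preimage a₀ h1
      · intro t
        obtain ⟨u, h1, _⟩ := hgood t
        exact ⟨u, h1⟩
      · intro t u h1
        obtain ⟨u', h2, h3⟩ := hgood t
        rw [huniq t u u' h1 h2]
        exact h3
    · rintro ⟨s, hs⟩
      refine ⟨fun L => κ₀ (code s) (L.length / 2), fun x hx => ?_⟩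
      have h1 : part 0 x = κ₀ (code s) := by
        funext n
        rw [part, hx n]
        simp only [length_hist]
        congr 1
        omega
      have h2 : x = join (κ₀ (code s)) (part 1 x) := by
        rw [← h1, join_part]
      refine ⟨code s, ?_, fun z y _ h4 _ => ?_⟩
      · rw [h2]
        exact l₀ _ _
      · refine hs y fun n => ?_
        rw [h4 n, code_encode]
  · rw [winsII_iff, winsII_iff]
    constructor
    · rintro ⟨s, hs⟩
      have hx : ∀ t, ∃ c, qq s 1 (κ₀ t) = join (κ₀ t) c := fun t =>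
        ⟨part 1 (qq s 1 (κ₀ t)), by
          have h1 : part 0 (qq s 1 (κ₀ t)) = κ₀ t := part_qq (b := 1) (by omega) _
          conv_lhs => rw [← join_part (qq s 1 (κ₀ t))]
          rw [h1]⟩
      have hgood : ∀ t, ∃ z, L₁ (qq s 1 (κ₀ t)) z ∧ rn 1 z t ∉ A := by
        intro t
        have h1 : qq s 1 (κ₀ t) ∉ Decoded L₀ L₁ A := hs _ (qq_own (by omega) _)
        by_contra h2
        push Not at h2
        refine h1 ⟨t, ?_, fun z y h3 h4 h5 => ?_⟩
        · obtain ⟨c, hc⟩ := hx t
          rw [hc]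
          exact l₀ _ _
        · have h7 := rn_unique (b := 1) (u := z) (t := t) (by omega) h5 h4
          rw [h7]
          exact h2 z h3
      have huniq : ∀ t z z', L₁ (qq s 1 (κ₀ t)) z → L₁ (qq s 1 (κ₀ t)) z' → z = z' := by
        intro t z z' h1 h2
        obtain ⟨c, hc⟩ := hx t
        rw [hc] at h1 h2
        exact u₁ _ _ _ _ h1 h2
      refine wins_of_analytic (b := 1) (by omega)
        (D := fun t u => L₁ (qq s 1 (κ₀ t)) u) ?_ ?_ huniq ?_
      · have h1 : Continuous fun p : (ℕ → Bool) × (ℕ → Bool) => (qq s 1 (κ₀ p.1), p.2) :=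
          (continuous_qq.comp (c₀.comp continuous_fst)).prodMk continuous_snd
        exact AnalyticSet.preimage a₁ h1
      · intro t
        obtain ⟨z, hz, _⟩ := hgood t
        exact ⟨z, hz⟩
      · intro t u h1
        obtain ⟨z, hz, h2⟩ := hgood t
        rw [huniq t u z h1 hz]
        exact h2
    · rintro ⟨s, hs⟩
      refine ⟨fun L => κ₁ (code s) (L.length / 2), fun x hx => ?_⟩
      have h1 : part 1 x = κ₁ (code s) := by
        funext n
        rw [part, hx n]
        simp only [length_hist]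
        congr 1
        omega
      have h2 : x = join (part 0 x) (κ₁ (code s)) := by
        rw [← h1, join_part]
      rintro ⟨u, _, h4⟩
      have h9 := h4 (code s) (rn 0 u (code s)) (by rw [h2]; exact l₁ _ _)
        (follows_own (b := 0) (by omega) _ _) (follows_opp (b := 0) (by omega) _ _)
      refine hs (rn 0 u (code s)) (fun n => ?_) h9
      have h10 := follows_opp (b := 0) (by omega) u (code s) n
      rw [show (1 - 0 : ℕ) = 1 from rfl] at h10
      rw [h10, code_encode]

variable {R : (ℕ → Bool) → (ℕ → Bool) → Prop} {κ₀ κ₁ : (ℕ → Bool) → ℕ → Bool}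

theorem polish_triple : PolishSpace (((ℕ → Bool) × (ℕ → Bool)) × (ℕ → Bool)) := by
  have : TopologicalSpace.IsCompletelyMetrizableSpace (ℕ → Bool) :=
    TopologicalSpace.IsCompletelyMetrizableSpace.pi_countable
  infer_instance

theorem main (hR : Equivalence R)
    (aR : AnalyticSet {p : (ℕ → Bool) × (ℕ → Bool) | R p.1 p.2})
    (c₀ : Continuous κ₀) (c₁ : Continuous κ₁) (h : Separated R κ₀ κ₁) (A : Set (ℕ → Bool)) :
    (∀ x y, R x y → (x ∈ Coded R κ₀ κ₁ A ↔ y ∈ Coded R κ₀ κ₁ A)) ∧
      (WinsI (Coded R κ₀ κ₁ A) ↔ WinsI A) ∧ (WinsII (Coded R κ₀ κ₁ A) ↔ WinsII A) := by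
  have _ := polish_triple
  have _ := polish_pair
  have hinv : ∀ x y, R x y → x ∈ Coded R κ₀ κ₁ A → y ∈ Coded R κ₀ κ₁ A := by
    rintro x y hxy ⟨u, ⟨b, h1⟩, h2⟩
    exact ⟨u, ⟨b, hR.trans (hR.symm hxy) h1⟩, fun z y' ⟨a, h3⟩ => h2 z y' ⟨a, hR.trans hxy h3⟩⟩
  refine ⟨fun x y hxy => ⟨hinv x y hxy, hinv y x (hR.symm hxy)⟩,
    decoding ?_ ?_ c₀ c₁ (fun u b => ⟨b, hR.refl _⟩) (fun a z => ⟨a, hR.refl _⟩) ?_ ?_ A⟩
  · have h1 : {p : (ℕ → Bool) × (ℕ → Bool) | ∃ b, R p.1 (join (κ₀ p.2) b)} =
        Prod.fst '' {q : ((ℕ → Bool) × (ℕ → Bool)) × (ℕ → Bool) |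
          R q.1.1 (join (κ₀ q.1.2) q.2)} := by
      ext p
      constructor
      · rintro ⟨b, hb⟩
        exact ⟨(p, b), hb, rfl⟩
      · rintro ⟨⟨p', b⟩, hb, rfl⟩
        exact ⟨b, hb⟩
    rw [h1]
    refine AnalyticSet.image_of_continuous ?_ continuous_fst
    exact aR.preimage (f := fun q : ((ℕ → Bool) × (ℕ → Bool)) × (ℕ → Bool) =>
      (q.1.1, join (κ₀ q.1.2) q.2)) ((continuous_fst.comp continuous_fst).prodMk
        (continuous_join.comp ((c₀.comp (continuous_snd.comp continuous_fst)).prodMk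
          continuous_snd)))
  · have h1 : {p : (ℕ → Bool) × (ℕ → Bool) | ∃ a, R p.1 (join a (κ₁ p.2))} =
        Prod.fst '' {q : ((ℕ → Bool) × (ℕ → Bool)) × (ℕ → Bool) |
          R q.1.1 (join q.2 (κ₁ q.1.2))} := by
      ext p
      constructor
      · rintro ⟨b, hb⟩
        exact ⟨(p, b), hb, rfl⟩
      · rintro ⟨⟨p', b⟩, hb, rfl⟩
        exact ⟨b, hb⟩
    rw [h1]
    refine AnalyticSet.image_of_continuous ?_ continuous_fst
    exact aR.preimage (f := fun q : ((ℕ → Bool) × (ℕ → Bool)) × (ℕ → Bool) =>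
      (q.1.1, join q.2 (κ₁ q.1.2))) ((continuous_fst.comp continuous_fst).prodMk
        (continuous_join.comp (continuous_snd.prodMk
          (c₁.comp (continuous_snd.comp continuous_fst)))))
  · rintro a t u u' ⟨b, h1⟩ ⟨b', h2⟩
    exact h.left _ _ _ _ _ _ h1 h2
  · rintro b t z z' ⟨a, h1⟩ ⟨a', h2⟩
    exact h.right _ _ _ _ _ _ h1 h2

/-- The unordered pairs of classes. -/
theorem equivalence_pair {E F : (ℕ → Bool) → (ℕ → Bool) → Prop} (hE : Equivalence E)
    (hF : Equivalence F) : Equivalence (SamePair E F) :=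
  ⟨fun _ => ⟨hE.refl _, hF.refl _⟩, fun h => ⟨hE.symm h.1, hF.symm h.2⟩,
    fun h h' => ⟨hE.trans h.1 h'.1, hF.trans h.2 h'.2⟩⟩

theorem equivalence_unordered {E : (ℕ → Bool) → (ℕ → Bool) → Prop} (hE : Equivalence E) :
    Equivalence (SameUnordered E) := by
  refine ⟨fun _ => Or.inl ⟨hE.refl _, hE.refl _⟩, ?_, ?_⟩
  · rintro x y (⟨h1, h2⟩ | ⟨h1, h2⟩)
    · exact Or.inl ⟨hE.symm h1, hE.symm h2⟩
    · exact Or.inr ⟨hE.symm h2, hE.symm h1⟩
  · rintro x y z (⟨h1, h2⟩ | ⟨h1, h2⟩) (⟨h3, h4⟩ | ⟨h3, h4⟩)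
    · exact Or.inl ⟨hE.trans h1 h3, hE.trans h2 h4⟩
    · exact Or.inr ⟨hE.trans h1 h3, hE.trans h2 h4⟩
    · exact Or.inr ⟨hE.trans h1 h4, hE.trans h2 h3⟩
    · exact Or.inl ⟨hE.trans h1 h4, hE.trans h2 h3⟩

theorem analytic_and {P Q : Set ((ℕ → Bool) × (ℕ → Bool))} (hP : AnalyticSet P)
    (hQ : AnalyticSet Q) : AnalyticSet (P ∩ Q) := by
  have h5 := AnalyticSet.iInter (s := fun i : Bool => if i then P else Q) (fun i => by
    cases i
    · simpa using hQ
    · simpa using hP)
  have h6 : (⋂ i : Bool, if i then P else Q) = P ∩ Q := by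
    ext p
    simp [Set.mem_iInter, and_comm]
  rw [← h6]
  exact h5

theorem analytic_or {P Q : Set ((ℕ → Bool) × (ℕ → Bool))} (hP : AnalyticSet P)
    (hQ : AnalyticSet Q) : AnalyticSet (P ∪ Q) := by
  have h5 := AnalyticSet.iUnion (s := fun i : Bool => if i then P else Q) (fun i => by
    cases i
    · simpa using hQ
    · simpa using hP)
  have h6 : (⋃ i : Bool, if i then P else Q) = P ∪ Q := by
    ext p
    simp [Set.mem_iUnion, or_comm]
  rw [← h6]
  exact h5

theorem analytic_parts {E : (ℕ → Bool) → (ℕ → Bool) → Prop}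
    (aE : AnalyticSet {p : (ℕ → Bool) × (ℕ → Bool) | E p.1 p.2}) (β γ : ℕ) :
    AnalyticSet {p : (ℕ → Bool) × (ℕ → Bool) | E (part β p.1) (part γ p.2)} := by
  have _ := polish_pair
  exact aE.preimage (f := fun p : (ℕ → Bool) × (ℕ → Bool) => (part β p.1, part γ p.2))
    (((continuous_part β).comp continuous_fst).prodMk ((continuous_part γ).comp continuous_snd))

theorem analytic_pair {E F : (ℕ → Bool) → (ℕ → Bool) → Prop}
    (aE : AnalyticSet {p : (ℕ → Bool) × (ℕ → Bool) | E p.1 p.2})
    (aF : AnalyticSet {p : (ℕ → Bool) × (ℕ → Bool) | F p.1 p.2}) :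
    AnalyticSet {p : (ℕ → Bool) × (ℕ → Bool) | SamePair E F p.1 p.2} :=
  analytic_and (analytic_parts aE 0 0) (analytic_parts aF 1 1)

theorem analytic_unordered {E : (ℕ → Bool) → (ℕ → Bool) → Prop}
    (aE : AnalyticSet {p : (ℕ → Bool) × (ℕ → Bool) | E p.1 p.2}) :
    AnalyticSet {p : (ℕ → Bool) × (ℕ → Bool) | SameUnordered E p.1 p.2} :=
  analytic_or (analytic_and (analytic_parts aE 0 0) (analytic_parts aE 1 1))
    (analytic_and (analytic_parts aE 0 1) (analytic_parts aE 1 0))

theorem separated_pair {E F : (ℕ → Bool) → (ℕ → Bool) → Prop} (hE : Equivalence E)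
    (hF : Equivalence F) (i₀ : ∀ u v, E (κ₀ u) (κ₀ v) → u = v)
    (i₁ : ∀ u v, F (κ₁ u) (κ₁ v) → u = v) : Separated (SamePair E F) κ₀ κ₁ := by
  refine ⟨?_, ?_⟩
  · rintro a t u b u' b' ⟨h1, _⟩ ⟨h2, _⟩
    rw [part_join_zero, part_join_zero] at h1 h2
    exact i₀ _ _ (hE.trans (hE.symm h1) h2)
  · rintro b t a z a' z' ⟨_, h1⟩ ⟨_, h2⟩
    rw [part_join_one, part_join_one] at h1 h2
    exact i₁ _ _ (hF.trans (hF.symm h1) h2)

theorem cons_inj {a b : Bool} {u v : ℕ → Bool} (h : cons a u = cons b v) : a = b ∧ u = v := by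
  refine ⟨?_, ?_⟩
  · have := congrFun h 0
    simpa [cons] using this
  · funext n
    have := congrFun h (n + 1)
    simpa [cons] using this

theorem continuous_cons (b : Bool) : Continuous (cons b) := by
  refine continuous_pi fun n => ?_
  simp only [cons]
  split_ifs
  · exact continuous_const
  · exact continuous_apply _

theorem separated_unordered {E : (ℕ → Bool) → (ℕ → Bool) → Prop} (hE : Equivalence E)
    {κ : (ℕ → Bool) → ℕ → Bool} (hκ : ∀ u v, E (κ u) (κ v) → u = v) :
    Separated (SameUnordered E) (fun u => κ (cons false u)) (fun u => κ (cons true u)) := by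
  refine ⟨?_, ?_⟩
  · have key : ∀ a t u b, SameUnordered E (join a (κ (cons true t))) (join (κ (cons false u)) b) →
        E a (κ (cons false u)) := by
      rintro a t u b (⟨h1, _⟩ | ⟨_, h1⟩)
      · rwa [part_join_zero, part_join_zero] at h1
      · rw [part_join_one, part_join_zero] at h1
        exact absurd (cons_inj (hκ _ _ h1)).1 (by simp)
    intro a t u b u' b' h1 h2
    exact (cons_inj (hκ _ _ (hE.trans (hE.symm (key _ _ _ _ h1)) (key _ _ _ _ h2)))).2
  · have key : ∀ b t a z, SameUnordered E (join (κ (cons false t)) b) (join a (κ (cons true z))) →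
        E b (κ (cons true z)) := by
      rintro b t a z (⟨_, h1⟩ | ⟨h1, _⟩)
      · rwa [part_join_one, part_join_one] at h1
      · rw [part_join_zero, part_join_one] at h1
        exact absurd (cons_inj (hκ _ _ h1)).1 (by simp)
    intro b t a z a' z' h1 h2
    exact (cons_inj (hκ _ _ (hE.trans (hE.symm (key _ _ _ _ h1)) (key _ _ _ _ h2)))).2

end Run7.h144.TD
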