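import Mathlib
import Pool.Agent.H685R3.KDefs
import Pool.Agent.Q203.BD.Main

/-!
A player who can beat every strategy of the opponent in a Borel way has a winning strategy.
-/

set_option autoImplicit false

namespace Run7.h144.TD

open Encodable
open Pool.Agent.H685R3 (hist)

/-- The player moving at the positions congruent to `b` modulo 2 can force the play into `A`. -/
def Wins (b : ℕ) (A : Set (ℕ → Bool)) : Prop :=
  ∃ s : List Bool → Bool, ∀ x : ℕ → Bool,
    (∀ n, x (2 * n + b) = s (hist x (2 * n + b))) → x ∈ A

theorem length_hist (x : ℕ → Bool) (n : ℕ) : (hist x n).length = n := by simp [hist]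

theorem hist_getD (x : ℕ → Bool) {i n : ℕ} (h : i < n) (d : Bool) :
    (hist x n).getD i d = x i := by
  rw [List.getD_eq_getElem _ _ (by rw [length_hist]; exact h)]
  simp [hist]

theorem hist_congr {x y : ℕ → Bool} {n : ℕ} (h : ∀ i < n, x i = y i) : hist x n = hist y n :=
  List.map_congr_left fun i hi => h i (List.mem_range.1 hi)

theorem hist_succ (x : ℕ → Bool) (n : ℕ) : hist x (n + 1) = hist x n ++ [x n] := by
  simp [hist, List.range_succ]

/-- The moves of the auxiliary game. -/
abbrev X : Type := Bool × Bool

/-- The history of the auxiliary play in which the player `b` follows `σ` and the opponent plays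
the bits of `x`. -/
def WW (σ : List X → X) (b : ℕ) (x : ℕ → Bool) : ℕ → List X
  | 0 => []
  | n + 1 => (if n % 2 = b then σ (WW σ b x n) else (x n, false)) :: WW σ b x n

/-- The play. -/
def ww (σ : List X → X) (b : ℕ) (x : ℕ → Bool) (n : ℕ) : X :=
  if n % 2 = b then σ (WW σ b x n) else (x n, false)

theorem hist_ww (σ : List X → X) (b : ℕ) (x : ℕ → Bool) (n : ℕ) :
    Q203.BD.hist (ww σ b x) n = WW σ b x n := by
  induction n with
  | zero => rfl
  | succ n ih => rw [Q203.BD.hist_succ, ih]; rfl

theorem WW_congr (σ : List X → X) (b : ℕ) {x y : ℕ → Bool} {n : ℕ} (h : ∀ i < n, x i = y i) :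
    WW σ b x n = WW σ b y n := by
  induction n with
  | zero => rfl
  | succ n ih =>
    rw [WW, WW, ih fun i hi => h i (by omega), h n (by omega)]

/-- The history of the auxiliary play in which the opponent of `b` follows `τ`, as guessed from the
history `h` and the bits of `t`. -/
def VV (τ : List X → X) (b : ℕ) (h t : ℕ → Bool) : ℕ → List X
  | 0 => []
  | n + 1 => (if n % 2 = b then (h n, t (n / 2)) else (h n, (τ (VV τ b h t n)).2)) :: VV τ b h t n

theorem VV_congr (τ : List X → X) (b : ℕ) {h h' t t' : ℕ → Bool} {n : ℕ}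
    (hh : ∀ i < n, h i = h' i) (ht : ∀ i < n, t i = t' i) : VV τ b h t n = VV τ b h' t' n := by
  induction n with
  | zero => rfl
  | succ n ih =>
    rw [VV, VV, ih (fun i hi => hh i (by omega)) fun i hi => ht i (by omega), hh n (by omega),
      ht (n / 2) (by omega)]

/-- The bits of the strategy of the opponent. -/
def TL (τ : List X → X) (b : ℕ) : ℕ → List Bool
  | 0 => []
  | m + 1 => TL τ b m ++ [(τ (VV τ b (fun i => ((decode (α := List Bool) m).getD []).getD i false)
      (fun i => (TL τ b m).getD i false) ((decode (α := List Bool) m).getD []).length)).1]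

/-- The strategy of the opponent: it answers as `τ` does to the player who, besides the moves,
plays the bits of this very strategy. -/
def tt (τ : List X → X) (b m : ℕ) : Bool :=
  (τ (VV τ b (fun i => ((decode (α := List Bool) m).getD []).getD i false)
      (fun i => (TL τ b m).getD i false) ((decode (α := List Bool) m).getD []).length)).1

theorem TL_eq (τ : List X → X) (b m : ℕ) : TL τ b m = hist (tt τ b) m := by
  induction m with
  | zero => rfl
  | succ m ih => rw [TL, hist_succ, ← ih]; rfl

theorem length_le_encode (l : List Bool) : l.length ≤ encode l := by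
  induction l with
  | nil => simp
  | cons a l ih =>
    rw [List.length_cons, Encodable.encode_list_cons]
    have := Nat.right_le_pair (encode a) (encode l)
    omega

theorem tt_encode (τ : List X → X) (b : ℕ) (l : List Bool) :
    tt τ b (encode l) = (τ (VV τ b (fun i => l.getD i false) (tt τ b) l.length)).1 := by
  rw [tt]
  simp only [encodek, Option.getD_some]
  rw [TL_eq]
  have h : VV τ b (fun i => l.getD i false)
      (fun i => (hist (tt τ b) (encode l)).getD i false) l.length =
      VV τ b (fun i => l.getD i false) (tt τ b) l.length :=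
    VV_congr τ b (fun _ _ => rfl) fun i hi =>
      hist_getD _ (lt_of_lt_of_le hi (length_le_encode l)) _
  rw [h]

/-- The bits played by the player `b` in the second coordinates. -/
def sec (b : ℕ) (w : ℕ → X) (n : ℕ) : Bool := (w (2 * n + b)).2

/-- The first coordinates. -/
def fst (w : ℕ → X) (n : ℕ) : Bool := (w n).1

theorem measurable_sec (b : ℕ) : Measurable (sec b) :=
  measurable_pi_lambda _ fun _ => measurable_snd.comp (measurable_pi_apply _)

theorem measurable_fst' : Measurable fst :=
  measurable_pi_lambda _ fun _ => measurable_fst.comp (measurable_pi_apply _)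

/-- The payoff set of the auxiliary game. -/
def PP (b : ℕ) (F : (ℕ → Bool) → ℕ → Bool) : Set (ℕ → X) := {w | fst w = F (sec b w)}

theorem measurableSet_PP {b : ℕ} {F : (ℕ → Bool) → ℕ → Bool} (hF : Measurable F) :
    MeasurableSet (PP b F) :=
  measurableSet_eq_fun measurable_fst' (hF.comp (measurable_sec b))

theorem det_PP {b : ℕ} (hb : b < 2) {F : (ℕ → Bool) → ℕ → Bool} (hF : Measurable F) :
    (∃ σ : List X → X, ∀ w : ℕ → X, (∀ n, n % 2 = b → w n = σ (Q203.BD.hist w n)) → w ∈ PP b F) ∨
      (∃ τ : List X → X, ∀ w : ℕ → X, (∀ n, n % 2 ≠ b → w n = τ (Q203.BD.hist w n)) →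
        w ∉ PP b F) := by
  have hbor : (inferInstance : MeasurableSpace (ℕ → X)) = borel (ℕ → X) := BorelSpace.measurable_eq
  have hm : ∀ P : Set (ℕ → X), MeasurableSet P → @MeasurableSet (ℕ → X) (borel (ℕ → X)) P := by
    intro P hP
    rw [← hbor]
    exact hP
  have hb' : b = 0 ∨ b = 1 := by omega
  rcases hb' with rfl | rfl
  · rcases Q203.BD.borel_determinacy (hm _ (measurableSet_PP (b := 0) hF)) with ⟨σ, hσ⟩ | ⟨τ, hτ⟩
    · exact Or.inl ⟨σ, fun w hw => hσ w fun n hn => hw n (Nat.even_iff.1 hn)⟩
    · exact Or.inr ⟨τ, fun w hw => hτ w fun n hn => hw n (by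
        rwa [Nat.even_iff] at hn)⟩
  · rcases Q203.BD.borel_determinacy (hm _ (measurableSet_PP (b := 1) hF).compl) with
      ⟨τ, hτ⟩ | ⟨σ, hσ⟩
    · refine Or.inr ⟨τ, fun w hw => hτ w fun n hn => hw n ?_⟩
      rw [Nat.even_iff] at hn
      omega
    · refine Or.inl ⟨σ, fun w hw => ?_⟩
      have := hσ w fun n hn => hw n (by
        rw [Nat.even_iff] at hn
        omega)
      exact not_not.1 this

/-- If the function `F` maps every strategy `t` of the opponent (coded by a sequence of bits) to a
play in `A` in which the opponent follows `t`, and `F` is Borel, then the player `b` can force the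
play into `A`. -/
theorem wins_of_borel {b : ℕ} (hb : b < 2) {A : Set (ℕ → Bool)} {F : (ℕ → Bool) → ℕ → Bool}
    (hF : Measurable F) (hA : ∀ t, F t ∈ A)
    (hc : ∀ t n, n % 2 ≠ b → F t n = t (encode (hist (F t) n))) : Wins b A := by
  rcases det_PP hb hF with ⟨σ, hσ⟩ | ⟨τ, hτ⟩
  · refine ⟨fun L => (σ (WW σ b (fun i => L.getD i false) L.length)).1, fun x hx => ?_⟩
    have h1 : fst (ww σ b x) = x := by
      funext n
      by_cases hn : n % 2 = b
      · rw [fst, ww, if_pos hn]
        have h2 := hx (n / 2)
        rw [show 2 * (n / 2) + b = n by omega] at h2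
        simp only [length_hist] at h2
        rw [h2]
        congr 2
        exact WW_congr σ b fun i hi => (hist_getD x hi false).symm
      · rw [fst, ww, if_neg hn]
    have h3 := hσ (ww σ b x) fun n hn => by rw [hist_ww, ww, if_pos hn]
    rw [PP, Set.mem_setOf_eq, h1] at h3
    rw [h3]
    exact hA _
  · exfalso
    obtain ⟨t, ht⟩ : ∃ t, t = tt τ b := ⟨_, rfl⟩
    obtain ⟨x, hx⟩ : ∃ x, x = F t := ⟨_, rfl⟩
    have hc' : ∀ n, n % 2 ≠ b → x n = t (encode (hist x n)) := fun n hn => by
      rw [hx]
      exact hc t n hn
    obtain ⟨w, hw⟩ : ∃ w : ℕ → X, ∀ n, w n = if n % 2 = b then (x n, t (n / 2)) else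
        (x n, (τ (VV τ b x t n)).2) := ⟨_, fun n => rfl⟩
    have h1 : ∀ n, Q203.BD.hist w n = VV τ b x t n := by
      intro n
      induction n with
      | zero => rfl
      | succ n ih => rw [Q203.BD.hist_succ, ih, hw, VV]
    refine hτ w (fun n hn => ?_) ?_
    · rw [h1, hw, if_neg hn]
      refine Prod.ext ?_ rfl
      simp only
      rw [hc' n hn, ht, tt_encode, length_hist]
      congr 2
      exact VV_congr τ b (fun i hi => hist_getD _ hi _) fun _ _ => rfl
    · have h2 : fst w = x := by
        funext n
        rw [fst, hw]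
        split_ifs <;> rfl
      have h3 : sec b w = t := by
        funext n
        rw [sec, hw, if_pos (by omega)]
        simp only
        congr 1
        omega
      rw [PP, Set.mem_setOf_eq, h2, h3, hx]

end Run7.h144.TD
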