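import Pool.Agent.Run7.h144.TD.Main
import Pool.Agent.Y588.PC.Turing

/-!
The Turing degrees: there is a perfect set of pairwise inequivalent reals, and Turing equivalence is
Borel.
-/

set_option autoImplicit false

namespace Run7.h144.TD

open MeasureTheory
open Pool.Agent.Helper227 Pool.Agent.H685R3 Pool.Agent.Y588.PD

theorem exists_turing : ∃ κ : (ℕ → Bool) → ℕ → Bool, Continuous κ ∧
    ∀ u v, SameDegree (κ u) (κ v) → u = v := by
  obtain ⟨E, hE0, hE1⟩ := exists_fam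
  have hE : Nice E := ⟨hE0, fun x => (hE1 x x).1 (TuringReducible.refl _), fun x y z h h' =>
    (hE1 x z).1 (TuringReducible.trans ((hE1 x y).2 h) ((hE1 y z).2 h'))⟩
  obtain ⟨τ, hτ⟩ := exists_tree hE0
  have hdeg : ∀ x y, SameDegree x y ↔ REq E x y := fun x y =>
    and_congr (hE1 x y) (hE1 y x)
  refine ⟨kap τ, continuous_kap τ, fun u v h => ?_⟩
  refine hE.unique hτ (b := kap τ u) ?_ ?_
  · exact (hdeg _ _).1 ⟨TuringReducible.refl _, TuringReducible.refl _⟩
  · exact (hdeg _ _).1 h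

theorem analytic_turing :
    AnalyticSet {p : (ℕ → Bool) × (ℕ → Bool) | SameDegree p.1 p.2} := by
  have _ := polish_pair
  obtain ⟨E, hE, hE1⟩ := exists_fam
  have h1 : {p : (ℕ → Bool) × (ℕ → Bool) | SameDegree p.1 p.2} =
      (⋃ e, Pool.Agent.Y588.PC.TT E e) ∩ Prod.swap ⁻¹' (⋃ e, Pool.Agent.Y588.PC.TT E e) := by
    ext ⟨x, y⟩
    have hx := hE1 x y
    have hy := hE1 y x
    simp only [Set.mem_setOf_eq, Set.mem_inter_iff, Set.mem_iUnion, Set.mem_preimage,
      Prod.swap_prod_mk]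
    constructor
    · rintro ⟨h1, h2⟩
      exact ⟨hy.1 h2, hx.1 h1⟩
    · rintro ⟨h1, h2⟩
      exact ⟨hx.2 h2, hy.2 h1⟩
  rw [h1]
  have h2 : MeasurableSet (⋃ e, Pool.Agent.Y588.PC.TT E e) :=
    MeasurableSet.iUnion fun e => Pool.Agent.Y588.PC.measurableSet_TT E e
  exact (h2.inter (measurable_swap h2)).analyticSet

end Run7.h144.TD
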